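import Pool.Agent.W583.GE.SkewB

/-! Project GE, part S. -/

set_option autoImplicit false
set_option linter.unusedSectionVars false

namespace Pool.Agent.W583.GE

universe u

open Polynomial

section Comb

variable {V : Type} {n c : ℕ}

/-- The exponents of the monomial of a word. -/
noncomputable def muo (em : Fin n × ZMod c → V) (e : ZMod c) : ℕ → List (Fin n) → (V →₀ ℕ)
  | _, [] => 0
  | o, i :: u => Finsupp.single (em (i, (o : ZMod c) * e)) 1 + muo em e (o + 1) u

theorem muo_shift (em : Fin n × ZMod c → V) (e : ZMod c) (sh : V → V)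
    (hsh : ∀ i y, sh (em (i, y)) = em (i, y + e)) (u : List (Fin n)) :
    ∀ o, (muo em e o u).mapDomain sh = muo em e (o + 1) u := by
  induction u with
  | nil => intro o; simp [muo]
  | cons i u ih =>
    intro o
    rw [muo, Finsupp.mapDomain_add, Finsupp.mapDomain_single, hsh, ih, muo, Nat.cast_add,
      Nat.cast_one, add_mul, one_mul]

theorem muo_fix (em : Fin n × ZMod c → V) (e : ZMod c) (sh : V → V)
    (hsh : ∀ i y, sh (em (i, y)) = em (i, y)) (u : List (Fin n)) :
    ∀ o, (muo em e o u).mapDomain sh = muo em e o u := by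
  induction u with
  | nil => intro o; simp [muo]
  | cons i u ih =>
    intro o
    rw [muo, Finsupp.mapDomain_add, Finsupp.mapDomain_single, hsh, ih]

theorem muo_off (em : Fin n × ZMod c → V) (e : ZMod c) (x : V) (hx : ∀ iy, em iy ≠ x)
    (u : List (Fin n)) : ∀ o, muo em e o u x = 0 := by
  induction u with
  | nil => intro o; simp [muo]
  | cons i u ih =>
    intro o
    rw [muo, Finsupp.add_apply, ih, Finsupp.single_eq_of_ne (hx _).symm]

theorem muo_out (em : Fin n × ZMod c → V) (hem : Function.Injective em) (e : ZMod c)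
    (i : Fin n) (y : ZMod c) (u : List (Fin n)) :
    ∀ o : ℕ, (∀ m : ℕ, o ≤ m → m < o + u.length → (m : ZMod c) * e ≠ y) →
      muo em e o u (em (i, y)) = 0 := by
  induction u with
  | nil => intro o _; simp [muo]
  | cons i' u ih =>
    intro o ho
    rw [muo, Finsupp.add_apply, ih (o + 1) (fun m h1 h2 => ho m (by omega) (by
      rw [List.length_cons]; omega)), Finsupp.single_eq_of_ne]
    intro h
    have h1 := hem h
    rw [Prod.mk.injEq] at h1
    exact ho o le_rfl (by rw [List.length_cons]; omega) h1.2.symm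

theorem muo_inj (em : Fin n × ZMod c → V) (hem : Function.Injective em) (e : ZMod c)
    (he : ∀ m < c, ∀ m' < c, (m : ZMod c) * e = (m' : ZMod c) * e → m = m') (u : List (Fin n)) :
    ∀ (u' : List (Fin n)) (o : ℕ) (n₁ n₂ : V →₀ ℕ), o + u.length ≤ c → o + u'.length ≤ c →
      (∀ iy, n₁ (em iy) = 0) → (∀ iy, n₂ (em iy) = 0) →
      muo em e o u + n₁ = muo em e o u' + n₂ → u = u' := by
  induction u with
  | nil =>
    intro u' o n₁ n₂ h1 h2 hn1 hn2 heq
    cases u' with
    | nil => rfl
    | cons i' u' =>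
      have h3 := DFunLike.congr_fun heq (em (i', (o : ZMod c) * e))
      simp only [muo, Finsupp.add_apply, hn1, hn2, Finsupp.single_eq_same, Finsupp.coe_zero,
        Pi.zero_apply] at h3
      omega
  | cons i u ih =>
    intro u' o n₁ n₂ h1 h2 hn1 hn2 heq
    cases u' with
    | nil =>
      have h3 := DFunLike.congr_fun heq (em (i, (o : ZMod c) * e))
      simp only [muo, Finsupp.add_apply, hn1, hn2, Finsupp.single_eq_same, Finsupp.coe_zero,
        Pi.zero_apply] at h3
      omega
    | cons i' u' =>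
      rw [List.length_cons] at h1 h2
      have h3 := DFunLike.congr_fun heq (em (i, (o : ZMod c) * e))
      have h4 : ∀ w : List (Fin n), o + (w.length + 1) ≤ c →
          muo em e (o + 1) w (em (i, (o : ZMod c) * e)) = 0 := by
        intro w hw
        apply muo_out em hem
        intro m hm1 hm2 hm3
        have := he m (by omega) o (by omega) hm3
        omega
      simp only [muo, Finsupp.add_apply, hn1, hn2, Finsupp.single_eq_same, h4 u h1,
        h4 u' h2, add_zero] at h3
      have h5 : i' = i := by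
        by_contra hne
        rw [Finsupp.single_eq_of_ne] at h3
        · omega
        · intro h6
          have h7 := hem h6
          rw [Prod.mk.injEq] at h7
          exact hne h7.1.symm
      subst h5
      rw [muo, muo, add_assoc, add_assoc] at heq
      rw [ih u' (o + 1) n₁ n₂ (by omega) (by omega) hn1 hn2 (add_left_cancel heq)]

end Comb

section Words

variable {K : Type u} [Field K] {V : Type} {n c N : ℕ} [NeZero N]

theorem wd_mon {act : ZMod N → MvPolynomial V K →ₐ[K] MvPolynomial V K} (h : Act act)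
    (em : Fin n × ZMod c → V) (e : ZMod c) (k0 : ℕ) (sh : V → V)
    (hact : act (k0 : ZMod N) = MvPolynomial.rename sh)
    (hsh : ∀ i y, sh (em (i, y)) = em (i, y + e)) (u : List (Fin n)) :
    W875.GE.wd (fun i => mon h k0 (MvPolynomial.monomial (Finsupp.single (em (i, 0)) 1) (1 : K))) u
      = mon h (u.length * k0) (MvPolynomial.monomial (muo em e 0 u) 1) := by
  induction u with
  | nil =>
    rw [W875.GE.wd, List.map_nil, List.prod_nil, List.length_nil, Nat.zero_mul, muo,
      MvPolynomial.monomial_zero', map_one, mon_zero_one]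
  | cons i u ih =>
    rw [W875.GE.wd] at ih ⊢
    rw [List.map_cons, List.prod_cons, ih, mon_mul, hact, MvPolynomial.rename_monomial,
      muo_shift em e sh hsh, MvPolynomial.monomial_mul, one_mul, muo, Nat.cast_zero, zero_mul,
      List.length_cons, Nat.add_mul, Nat.one_mul, Nat.add_comm]

theorem mon_comm {P : Type u} [CommRing P] [Algebra K P] {act : ZMod N → P →ₐ[K] P}
    (h : Act act) (k l : ℕ) (p q : P) : mon h (k + l) (p * q) = mon h (l + k) (q * p) := by
  rw [Nat.add_comm, mul_comm]

/-- The sum of the first row at `z = 1`. -/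
noncomputable def lam {P : Type u} [CommRing P] [Algebra K P] {act : ZMod N → P →ₐ[K] P}
    (h : Act act) : Sk h →ₗ[K] P where
  toFun f := ∑ j, ((f : (Matrix (ZMod N) (ZMod N) P)[X]).eval 1) 0 j
  map_add' f g := by
    rw [← Finset.sum_add_distrib]
    refine Finset.sum_congr rfl fun j _ => ?_
    show ((f : (Matrix (ZMod N) (ZMod N) P)[X]) + (g : Sk h)).eval 1 0 j = _
    rw [eval_add]
    rfl
  map_smul' r f := by
    rw [Finset.smul_sum]
    refine Finset.sum_congr rfl fun j _ => ?_
    show (r • (f : (Matrix (ZMod N) (ZMod N) P)[X])).eval 1 0 j = _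
    rw [eval_smul]
    rfl

theorem lam_mon {P : Type u} [CommRing P] [Algebra K P] {act : ZMod N → P →ₐ[K] P}
    (h : Act act) (k : ℕ) (p : P) : lam h (mon h k p) = p := by
  show ∑ j, ((mon h k p : Sk h) : (Matrix (ZMod N) (ZMod N) P)[X]).eval 1 0 j = p
  rw [mon_coe, eval_monomial, one_pow, mul_one]
  rw [Finset.sum_eq_single (0 + (k : ZMod N))]
  · rw [mat_apply, if_pos rfl, h.zero]
  · intro j _ hj
    rw [mat_apply, if_neg hj]
  · intro hj
    exact absurd (Finset.mem_univ _) hj

end Words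

/-- The shift of the variables. -/
def shf (n a b : ℕ) (i : ZMod (a * b)) :
    (Fin n × ZMod b) ⊕ (Fin n × ZMod a) → (Fin n × ZMod b) ⊕ (Fin n × ZMod a) :=
  Sum.map (fun x => (x.1, x.2 + ZMod.castHom (Dvd.intro_left a rfl : b ∣ a * b) (ZMod b) i))
    (fun x => (x.1, x.2 + ZMod.castHom (Dvd.intro b rfl : a ∣ a * b) (ZMod a) i))

theorem shf_zero (n a b : ℕ) : shf n a b 0 = id := by
  funext x
  rcases x with x | x <;> simp [shf]

theorem shf_add (n a b : ℕ) (i j : ZMod (a * b)) : shf n a b i ∘ shf n a b j = shf n a b (i + j) := by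
  funext x
  rcases x with x | x
  · simp only [shf, Function.comp_apply, Sum.map_inl, map_add]
    congr 2
    ring
  · simp only [shf, Function.comp_apply, Sum.map_inr, map_add]
    congr 2
    ring

theorem act_shf (K : Type u) [Field K] (n a b : ℕ) :
    Act (fun i : ZMod (a * b) => (MvPolynomial.rename (shf n a b i) :
      MvPolynomial ((Fin n × ZMod b) ⊕ (Fin n × ZMod a)) K →ₐ[K] _)) where
  zero p := by
    rw [shf_zero, MvPolynomial.rename_id_apply]
  add i j p := by
    rw [MvPolynomial.rename_rename, shf_add]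

theorem partS : W875.GE.PartS.{u} := by
  intro K _ n d
  have hN : NeZero ((d + 1) * (d + 2)) := ⟨by positivity⟩
  have h := act_shf K n (d + 1) (d + 2)
  obtain ⟨q, ρ, hρ⟩ := exists_rho h
  let emX : Fin n × ZMod (d + 2) → (Fin n × ZMod (d + 2)) ⊕ (Fin n × ZMod (d + 1)) := Sum.inl
  let emY : Fin n × ZMod (d + 1) → (Fin n × ZMod (d + 2)) ⊕ (Fin n × ZMod (d + 1)) := Sum.inr
  let X : Fin n → Sk h := fun i =>
    mon h (d + 1) (MvPolynomial.monomial (Finsupp.single (emX (i, 0)) 1) (1 : K))
  let Y : Fin n → Sk h := fun i =>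
    mon h (d + 2) (MvPolynomial.monomial (Finsupp.single (emY (i, 0)) 1) (1 : K))
  have hcX : ∀ k : ℕ, ZMod.castHom (Dvd.intro_left (d + 1) rfl : (d + 2) ∣ (d + 1) * (d + 2))
      (ZMod (d + 2)) (k : ZMod ((d + 1) * (d + 2))) = (k : ZMod (d + 2)) := fun k => map_natCast _ k
  have hcY : ∀ k : ℕ, ZMod.castHom (Dvd.intro (d + 2) rfl : (d + 1) ∣ (d + 1) * (d + 2))
      (ZMod (d + 1)) (k : ZMod ((d + 1) * (d + 2))) = (k : ZMod (d + 1)) := fun k => map_natCast _ k
  have hXX : ∀ i y, shf n (d + 1) (d + 2) ((d + 1 : ℕ) : ZMod ((d + 1) * (d + 2))) (emX (i, y)) =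
      emX (i, y + ((d + 1 : ℕ) : ZMod (d + 2))) := by
    intro i y
    show Sum.inl (i, y + _) = _
    rw [hcX]
  have hXY : ∀ (k : ℕ) i y, shf n (d + 1) (d + 2) ((k * (d + 1) : ℕ) : ZMod ((d + 1) * (d + 2)))
      (emY (i, y)) = emY (i, y) := by
    intro k i y
    show Sum.inr (i, y + _) = _
    rw [hcY, Nat.cast_mul, ZMod.natCast_self, mul_zero, add_zero]
  have hYY : ∀ i y, shf n (d + 1) (d + 2) ((d + 2 : ℕ) : ZMod ((d + 1) * (d + 2))) (emY (i, y)) =
      emY (i, y + ((d + 2 : ℕ) : ZMod (d + 1))) := by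
    intro i y
    show Sum.inr (i, y + _) = _
    rw [hcY]
  have hYX : ∀ i y, shf n (d + 1) (d + 2) ((d + 2 : ℕ) : ZMod ((d + 1) * (d + 2)))
      (emX (i, y)) = emX (i, y) := by
    intro i y
    show Sum.inl (i, y + _) = _
    rw [hcX, ZMod.natCast_self, add_zero]
  have hprod : ∀ u v : List (Fin n), W875.GE.wd X u * W875.GE.wd Y v =
      mon h (u.length * (d + 1) + v.length * (d + 2)) (MvPolynomial.monomial
        (muo emX ((d + 1 : ℕ) : ZMod (d + 2)) 0 u + muo emY ((d + 2 : ℕ) : ZMod (d + 1)) 0 v) 1) := by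
    intro u v
    have e1 := wd_mon h emX ((d + 1 : ℕ) : ZMod (d + 2)) (d + 1) _ rfl hXX u
    have e2 := wd_mon h emY ((d + 2 : ℕ) : ZMod (d + 1)) (d + 2) _ rfl hYY v
    show W875.GE.wd (fun i => mon h (d + 1) (MvPolynomial.monomial
      (Finsupp.single (emX (i, 0)) 1) (1 : K))) u * W875.GE.wd (fun i => mon h (d + 2)
      (MvPolynomial.monomial (Finsupp.single (emY (i, 0)) 1) (1 : K))) v = _
    rw [e1, e2, mon_mul, MvPolynomial.rename_monomial, muo_fix emY _ _ (hXY u.length),
      MvPolynomial.monomial_mul, one_mul]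
  refine ⟨Sk h, inferInstance, inferInstance,
    Polynomial (MvPolynomial ((Fin n × ZMod (d + 2)) ⊕ (Fin n × ZMod (d + 1))) K),
    inferInstance, inferInstance, q, ρ, X, Y, Sk_isDomain h, inferInstance, hρ, dep h, ?_, ?_⟩
  · intro i j
    show mon h (d + 1) _ * mon h (d + 2) _ = mon h (d + 2) _ * mon h (d + 1) _
    rw [mon_mul, mon_mul, MvPolynomial.rename_monomial, MvPolynomial.rename_monomial,
      Finsupp.mapDomain_single, Finsupp.mapDomain_single, hYX]
    have h1 := hXY 1 j 0
    rw [Nat.one_mul] at h1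
    rw [h1]
    exact mon_comm h _ _ _ _
  · apply LinearIndependent.of_comp (lam h)
    have e3 : (lam h ∘ fun p : {p : List (Fin n) × List (Fin n) //
        p.1.length + p.2.length = d} => W875.GE.wd X p.1.1 * W875.GE.wd Y p.1.2) =
        (MvPolynomial.basisMonomials ((Fin n × ZMod (d + 2)) ⊕ (Fin n × ZMod (d + 1))) K) ∘
        fun p : {p : List (Fin n) × List (Fin n) // p.1.length + p.2.length = d} =>
        muo emX ((d + 1 : ℕ) : ZMod (d + 2)) 0 p.1.1 +
          muo emY ((d + 2 : ℕ) : ZMod (d + 1)) 0 p.1.2 := by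
      funext p
      rw [Function.comp_apply, Function.comp_apply, hprod, lam_mon]
      simp
    rw [e3]
    refine (MvPolynomial.basisMonomials _ K).linearIndependent.comp _ ?_
    rintro ⟨⟨u, v⟩, hp⟩ ⟨⟨u', v'⟩, hp'⟩ heq
    simp only at hp hp' heq
    have hiX : Function.Injective emX := Sum.inl_injective
    have hiY : Function.Injective emY := Sum.inr_injective
    have heX : ∀ m < d + 2, ∀ m' < d + 2, (m : ZMod (d + 2)) * ((d + 1 : ℕ) : ZMod (d + 2)) =
        (m' : ZMod (d + 2)) * ((d + 1 : ℕ) : ZMod (d + 2)) → m = m' := by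
      intro m hm m' hm' hmm
      have h1 : ((d + 1 : ℕ) : ZMod (d + 2)) = -1 := by
        have h2 : ((d + 2 : ℕ) : ZMod (d + 2)) = 0 := ZMod.natCast_self _
        rw [show d + 2 = (d + 1) + 1 from rfl, Nat.cast_add, Nat.cast_one] at h2
        exact eq_neg_of_add_eq_zero_left h2
      rw [h1, mul_neg_one, mul_neg_one, neg_inj, ZMod.natCast_eq_natCast_iff] at hmm
      exact Nat.ModEq.eq_of_lt_of_lt hmm hm hm'
    have heY : ∀ m < d + 1, ∀ m' < d + 1, (m : ZMod (d + 1)) * ((d + 2 : ℕ) : ZMod (d + 1)) =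
        (m' : ZMod (d + 1)) * ((d + 2 : ℕ) : ZMod (d + 1)) → m = m' := by
      intro m hm m' hm' hmm
      have h1 : ((d + 2 : ℕ) : ZMod (d + 1)) = 1 := by
        rw [show d + 2 = (d + 1) + 1 from rfl, Nat.cast_add, ZMod.natCast_self, zero_add,
          Nat.cast_one]
      rw [h1, mul_one, mul_one, ZMod.natCast_eq_natCast_iff] at hmm
      exact Nat.ModEq.eq_of_lt_of_lt hmm hm hm'
    have hu : u = u' := muo_inj emX hiX _ heX u u' 0 _ _ (by omega) (by omega)
      (fun iy => muo_off emY _ _ (fun _ => Sum.inr_ne_inl) v 0)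
      (fun iy => muo_off emY _ _ (fun _ => Sum.inr_ne_inl) v' 0) heq
    have hv : v = v' := muo_inj emY hiY _ heY v v' 0 _ _ (by omega) (by omega)
      (fun iy => muo_off emX _ _ (fun _ => Sum.inl_ne_inr) u 0)
      (fun iy => muo_off emX _ _ (fun _ => Sum.inl_ne_inr) u' 0)
      ((add_comm _ _).trans (heq.trans (add_comm _ _)))
    subst hu
    subst hv
    rfl

end Pool.Agent.W583.GE
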