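import Mathlib
import Pool.Agent.W875.GE.Spec

/-! Project GE, part S: a skew polynomial ring `P[z; σ]`, realised as a subalgebra of the
polynomials over a matrix ring. -/

set_option autoImplicit false
set_option linter.unusedSectionVars false

namespace Pool.Agent.W583.GE

universe u

open Polynomial

section Gen

variable {K P : Type u} [Field K] [CommRing P] [Algebra K P] {N : ℕ} [NeZero N]

/-- An action of `ZMod N` by algebra maps. -/
structure Act (act : ZMod N → P →ₐ[K] P) : Prop where
  zero : ∀ p, act 0 p = p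
  add : ∀ i j p, act (i + j) p = act i (act j p)

theorem Act.neg_left {act : ZMod N → P →ₐ[K] P} (h : Act act) (i : ZMod N) (p : P) :
    act (-i) (act i p) = p := by
  rw [← h.add, neg_add_cancel, h.zero]

theorem Act.neg_right {act : ZMod N → P →ₐ[K] P} (h : Act act) (i : ZMod N) (p : P) :
    act i (act (-i) p) = p := by
  rw [← h.add, add_neg_cancel, h.zero]

/-- The matrix of `p z ^ k`. -/
def mat (act : ZMod N → P →ₐ[K] P) (k : ZMod N) : P →ₗ[K] Matrix (ZMod N) (ZMod N) P where
  toFun p := Matrix.of fun i j => if j = i + k then act i p else 0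
  map_add' p q := by
    ext i j
    by_cases h : j = i + k <;> simp [h]
  map_smul' c p := by
    ext i j
    by_cases h : j = i + k <;> simp [h]

theorem mat_apply (act : ZMod N → P →ₐ[K] P) (k : ZMod N) (p : P) (i j : ZMod N) :
    mat act k p i j = if j = i + k then act i p else 0 := rfl

theorem mat_mul {act : ZMod N → P →ₐ[K] P} (h : Act act) (k l : ZMod N) (p q : P) :
    mat act k p * mat act l q = mat act (k + l) (p * act k q) := by
  ext i j
  rw [Matrix.mul_apply, Finset.sum_eq_single (i + k)]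
  · rw [mat_apply, mat_apply, mat_apply, if_pos rfl, ← add_assoc]
    by_cases hj : j = i + k + l
    · rw [if_pos hj, if_pos hj, map_mul, ← h.add]
    · rw [if_neg hj, if_neg hj, mul_zero]
  · intro x _ hx
    rw [mat_apply, if_neg hx, zero_mul]
  · intro hx
    exact absurd (Finset.mem_univ _) hx

theorem mat_neg_zero {act : ZMod N → P →ₐ[K] P} (k : ZMod N) (p : P) :
    mat act k p (-k) 0 = act (-k) p := by
  rw [mat_apply, if_pos (by simp)]

theorem mat_eq_zero {act : ZMod N → P →ₐ[K] P} (h : Act act) (k : ZMod N) (p : P)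
    (hp : mat act k p = 0) : p = 0 := by
  have h1 := congrFun (congrFun hp 0) (0 + k)
  rw [mat_apply, if_pos rfl, h.zero] at h1
  exact h1

theorem mat_one {act : ZMod N → P →ₐ[K] P} (c : K) :
    mat act 0 (algebraMap K P c) = algebraMap K (Matrix (ZMod N) (ZMod N) P) c := by
  ext i j
  rw [mat_apply, Matrix.algebraMap_matrix_apply]
  by_cases h : i = j
  · subst h
    simp
  · rw [if_neg h, if_neg (by rw [add_zero]; exact fun h' => h h'.symm)]

/-- The skew polynomial ring. -/
def Sk {act : ZMod N → P →ₐ[K] P} (h : Act act) :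
    Subalgebra K (Matrix (ZMod N) (ZMod N) P)[X] where
  carrier := {f | ∀ k : ℕ, ∃ p : P, f.coeff k = mat act (k : ZMod N) p}
  mul_mem' := by
    intro f g hf hg k
    choose p hp using hf
    choose q hq using hg
    refine ⟨∑ x ∈ Finset.HasAntidiagonal.antidiagonal k, p x.1 * act (x.1 : ZMod N) (q x.2), ?_⟩
    rw [coeff_mul, map_sum]
    refine Finset.sum_congr rfl fun x hx => ?_
    rw [hp, hq, mat_mul h, ← Finset.HasAntidiagonal.mem_antidiagonal.1 hx, Nat.cast_add]
  add_mem' := by
    intro f g hf hg k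
    obtain ⟨p, hp⟩ := hf k
    obtain ⟨q, hq⟩ := hg k
    exact ⟨p + q, by rw [coeff_add, hp, hq, map_add]⟩
  algebraMap_mem' := by
    intro c k
    rw [Polynomial.algebraMap_apply, coeff_C]
    by_cases hk : k = 0
    · subst hk
      refine ⟨algebraMap K P c, ?_⟩
      rw [if_pos rfl, Nat.cast_zero, mat_one]
    · exact ⟨0, by rw [if_neg hk, map_zero]⟩

theorem mem_Sk {act : ZMod N → P →ₐ[K] P} (h : Act act) (f : (Matrix (ZMod N) (ZMod N) P)[X]) :
    f ∈ Sk h ↔ ∀ k : ℕ, ∃ p : P, f.coeff k = mat act (k : ZMod N) p := Iff.rfl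

/-- The element `p z ^ k`. -/
noncomputable def mon {act : ZMod N → P →ₐ[K] P} (h : Act act) (k : ℕ) (p : P) : Sk h :=
  ⟨monomial k (mat act (k : ZMod N) p), by
    intro l
    rw [coeff_monomial]
    by_cases hl : k = l
    · subst hl
      exact ⟨p, if_pos rfl⟩
    · exact ⟨0, by rw [if_neg hl, map_zero]⟩⟩

theorem mon_coe {act : ZMod N → P →ₐ[K] P} (h : Act act) (k : ℕ) (p : P) :
    ((mon h k p : Sk h) : (Matrix (ZMod N) (ZMod N) P)[X]) = monomial k (mat act (k : ZMod N) p) :=
  rfl

theorem mon_mul {act : ZMod N → P →ₐ[K] P} (h : Act act) (k l : ℕ) (p q : P) :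
    mon h k p * mon h l q = mon h (k + l) (p * act (k : ZMod N) q) := by
  apply Subtype.ext
  show ((mon h k p : Sk h) : (Matrix (ZMod N) (ZMod N) P)[X]) * (mon h l q : Sk h) = _
  rw [mon_coe, mon_coe, mon_coe, monomial_mul_monomial, mat_mul h, Nat.cast_add]

theorem mon_zero_one {act : ZMod N → P →ₐ[K] P} (h : Act act) : mon h 0 (1 : P) = 1 := by
  apply Subtype.ext
  show ((mon h 0 1 : Sk h) : (Matrix (ZMod N) (ZMod N) P)[X]) = 1
  rw [mon_coe, Nat.cast_zero, ← map_one (algebraMap K P), mat_one, map_one]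
  rfl

theorem Sk_mul_ne_zero {act : ZMod N → P →ₐ[K] P} (h : Act act) [IsDomain P]
    (f g : (Matrix (ZMod N) (ZMod N) P)[X]) (hf : f ∈ Sk h) (hg : g ∈ Sk h) (hf0 : f ≠ 0)
    (hg0 : g ≠ 0) : f * g ≠ 0 := by
  intro h0
  have h1 := coeff_mul_degree_add_degree f g
  rw [h0, coeff_zero] at h1
  obtain ⟨p, hp⟩ := hf f.natDegree
  obtain ⟨q, hq⟩ := hg g.natDegree
  have hp0 : p ≠ 0 := by
    rintro rfl
    rw [map_zero] at hp
    exact hf0 (leadingCoeff_eq_zero.1 hp)
  have hq0 : q ≠ 0 := by
    rintro rfl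
    rw [map_zero] at hq
    exact hg0 (leadingCoeff_eq_zero.1 hq)
  rw [leadingCoeff, leadingCoeff, hp, hq, mat_mul h] at h1
  have h2 := mat_eq_zero h _ _ h1.symm
  rcases mul_eq_zero.1 h2 with h3 | h3
  · exact hp0 h3
  · apply hq0
    rw [← h.neg_left (f.natDegree : ZMod N) q, h3, map_zero]

theorem Sk_isDomain {act : ZMod N → P →ₐ[K] P} (h : Act act) [IsDomain P] : IsDomain (Sk h) := by
  have hn : Nontrivial (Sk h) := inferInstance
  have hz : NoZeroDivisors (Sk h) := by
    refine ⟨fun {a b} hab => ?_⟩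
    by_contra hne
    rw [not_or] at hne
    refine Sk_mul_ne_zero h a b a.2 b.2 (fun e => hne.1 (Subtype.ext e))
      (fun e => hne.2 (Subtype.ext e)) ?_
    exact congrArg Subtype.val hab
  exact NoZeroDivisors.to_isDomain (Sk h)

end Gen

end Pool.Agent.W583.GE
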