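import Pool.Agent.W583.GE.SkewA

/-! Project GE, part S: dependency and the matrix representation. -/

set_option autoImplicit false
set_option linter.unusedSectionVars false

namespace Pool.Agent.W583.GE

universe u

open Polynomial

section Gen

variable {K P : Type u} [Field K] [CommRing P] [Algebra K P] {N : ℕ} [NeZero N]

/-- right coefficients `q` to the polynomial `∑ z ^ l q_l` -/
noncomputable def enc {act : ZMod N → P →ₐ[K] P} (h : Act act) (m : ℕ) (q : Fin (m + 1) → P) :
    Sk h := ∑ l : Fin (m + 1), mon h (l : ℕ) (act ((l : ℕ) : ZMod N) (q l))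

theorem coeff_mul_mon {act : ZMod N → P →ₐ[K] P} (h : Act act) (v : Sk h) (k l : ℕ) (p : P) :
    ((v * mon h l (act (l : ZMod N) p) : Sk h) : (Matrix (ZMod N) (ZMod N) P)[X]).coeff k
      (-(k : ZMod N)) 0 =
    if l ≤ k then (v : (Matrix (ZMod N) (ZMod N) P)[X]).coeff (k - l) (-(k : ZMod N))
      (-(l : ZMod N)) * p else 0 := by
  have e1 : ((v * mon h l (act (l : ZMod N) p) : Sk h) : (Matrix (ZMod N) (ZMod N) P)[X]) =
      (v : (Matrix (ZMod N) (ZMod N) P)[X]) * C (mat act (l : ZMod N) (act (l : ZMod N) p)) *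
        X ^ l := by
    rw [mul_assoc, C_mul_X_pow_eq_monomial]
    rfl
  rw [e1, coeff_mul_X_pow', coeff_mul_C]
  by_cases hl : l ≤ k
  · rw [if_pos hl, if_pos hl, Matrix.mul_apply, Finset.sum_eq_single (-(l : ZMod N))]
    · rw [mat_neg_zero, h.neg_left]
    · intro x _ hx
      rw [mat_apply, if_neg, mul_zero]
      intro h0
      exact hx (eq_neg_of_add_eq_zero_left h0.symm)
    · intro hx
      exact absurd (Finset.mem_univ _) hx
  · rw [if_neg hl, if_neg hl]
    rfl

theorem coeff_mul_enc {act : ZMod N → P →ₐ[K] P} (h : Act act) (v : Sk h) (k m : ℕ)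
    (q : Fin (m + 1) → P) :
    ((v * enc h m q : Sk h) : (Matrix (ZMod N) (ZMod N) P)[X]).coeff k (-(k : ZMod N)) 0 =
    ∑ l : Fin (m + 1), if (l : ℕ) ≤ k then
      (v : (Matrix (ZMod N) (ZMod N) P)[X]).coeff (k - l) (-(k : ZMod N))
        (-((l : ℕ) : ZMod N)) * q l else 0 := by
  rw [enc, Finset.mul_sum]
  have e1 : ((∑ l : Fin (m + 1), v * mon h (l : ℕ) (act ((l : ℕ) : ZMod N) (q l)) : Sk h) :
      (Matrix (ZMod N) (ZMod N) P)[X]) = ∑ l : Fin (m + 1),
      ((v * mon h (l : ℕ) (act ((l : ℕ) : ZMod N) (q l)) : Sk h) :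
        (Matrix (ZMod N) (ZMod N) P)[X]) := by
    exact map_sum (Sk h).val _ _
  rw [e1, finsetSum_coeff, Matrix.sum_apply]
  exact Finset.sum_congr rfl fun l _ => coeff_mul_mon h v k l (q l)

theorem eq_zero_of_coeff {act : ZMod N → P →ₐ[K] P} (h : Act act) (f : Sk h)
    (hf : ∀ k : ℕ, (f : (Matrix (ZMod N) (ZMod N) P)[X]).coeff k (-(k : ZMod N)) 0 = 0) :
    f = 0 := by
  apply Subtype.ext
  show (f : (Matrix (ZMod N) (ZMod N) P)[X]) = 0
  apply Polynomial.ext
  intro k
  obtain ⟨p, hp⟩ := f.2 k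
  have h1 := hf k
  rw [hp, mat_neg_zero] at h1
  rw [hp, coeff_zero, ← h.neg_right (k : ZMod N) p, h1, map_zero, map_zero]

theorem enc_ne_zero {act : ZMod N → P →ₐ[K] P} (h : Act act) (m : ℕ) (q : Fin (m + 1) → P)
    (hq : enc h m q = 0) : q = 0 := by
  funext l
  have h1 := coeff_mul_enc h 1 (l : ℕ) m q
  rw [one_mul, hq] at h1
  rw [Finset.sum_eq_single l] at h1
  · rw [if_pos le_rfl, Nat.sub_self] at h1
    have h2 : ((1 : Sk h) : (Matrix (ZMod N) (ZMod N) P)[X]).coeff 0
        (-((l : ℕ) : ZMod N)) (-((l : ℕ) : ZMod N)) = 1 := by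
      show (1 : (Matrix (ZMod N) (ZMod N) P)[X]).coeff 0 _ _ = 1
      rw [coeff_one_zero, Matrix.one_apply_eq]
    rw [h2, one_mul] at h1
    rw [← h1]
    rfl
  · intro x _ hx
    by_cases hxl : (x : ℕ) ≤ l
    · rw [if_pos hxl]
      have hne : (x : ℕ) ≠ l := fun e => hx (Fin.ext e)
      have h2 : ((1 : Sk h) : (Matrix (ZMod N) (ZMod N) P)[X]).coeff ((l : ℕ) - x) = 0 := by
        show (1 : (Matrix (ZMod N) (ZMod N) P)[X]).coeff _ = 0
        rw [coeff_one, if_neg (by omega)]
      rw [h2]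
      simp
    · rw [if_neg hxl]
  · intro hx
    exact absurd (Finset.mem_univ _) hx

theorem dep {act : ZMod N → P →ₐ[K] P} (h : Act act) [Nontrivial P] : W875.GE.Dep (Sk h) := by
  intro r v
  obtain ⟨c, hc⟩ : ∃ c : ℕ, ∀ j i,
      (v j i : (Matrix (ZMod N) (ZMod N) P)[X]).natDegree ≤ c := by
    refine ⟨∑ j, ∑ i, (v j i : (Matrix (ZMod N) (ZMod N) P)[X]).natDegree, fun j i => ?_⟩
    calc (v j i : (Matrix (ZMod N) (ZMod N) P)[X]).natDegree
        ≤ ∑ i, (v j i : (Matrix (ZMod N) (ZMod N) P)[X]).natDegree :=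
          Finset.single_le_sum (f := fun i =>
            (v j i : (Matrix (ZMod N) (ZMod N) P)[X]).natDegree) (fun _ _ => Nat.zero_le _)
            (Finset.mem_univ i)
      _ ≤ _ := Finset.single_le_sum (f := fun j => ∑ i,
            (v j i : (Matrix (ZMod N) (ZMod N) P)[X]).natDegree) (fun _ _ => Nat.zero_le _)
            (Finset.mem_univ j)
  obtain ⟨m, hm⟩ : ∃ m : ℕ, m = r * c := ⟨_, rfl⟩
  let A : Matrix (Fin r × Fin (m + c + 1)) (Fin (r + 1) × Fin (m + 1)) P :=
    Matrix.of fun ik jl => if (jl.2 : ℕ) ≤ ik.2 then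
      (v jl.1 ik.1 : (Matrix (ZMod N) (ZMod N) P)[X]).coeff ((ik.2 : ℕ) - jl.2)
        (-((ik.2 : ℕ) : ZMod N)) (-((jl.2 : ℕ) : ZMod N)) else 0
  have hni : ¬ Function.Injective A.mulVecLin := by
    intro hi
    have h1 := card_le_of_injective P A.mulVecLin hi
    simp only [Fintype.card_prod, Fintype.card_fin] at h1
    rw [hm] at h1
    nlinarith
  rw [injective_iff_map_eq_zero] at hni
  push Not at hni
  obtain ⟨y, hy0, hy⟩ := hni
  refine ⟨fun j => enc h m fun l => y (j, l), ?_, ?_⟩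
  · intro h0
    apply hy
    funext jl
    have h1 := enc_ne_zero h m _ (congrFun h0 jl.1)
    exact congrFun h1 jl.2
  · intro i
    apply eq_zero_of_coeff
    intro k
    have e1 : ((∑ j, v j i * enc h m (fun l => y (j, l)) : Sk h) :
        (Matrix (ZMod N) (ZMod N) P)[X]) = ∑ j,
        ((v j i * enc h m (fun l => y (j, l)) : Sk h) : (Matrix (ZMod N) (ZMod N) P)[X]) :=
      map_sum (Sk h).val _ _
    rw [e1, finsetSum_coeff, Matrix.sum_apply]
    simp only [coeff_mul_enc]
    by_cases hk : k < m + c + 1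
    · have h2 := congrFun hy0 (i, ⟨k, hk⟩)
      rw [Matrix.mulVecLin_apply, Matrix.mulVec, dotProduct, Fintype.sum_prod_type] at h2
      rw [Pi.zero_apply] at h2
      refine Eq.trans ?_ h2
      refine Finset.sum_congr rfl fun j _ => Finset.sum_congr rfl fun l _ => ?_
      simp only [A, Matrix.of_apply]
      split_ifs
      · rfl
      · rw [zero_mul]
    · refine Finset.sum_eq_zero fun j _ => Finset.sum_eq_zero fun l _ => ?_
      have h3 : (v j i : (Matrix (ZMod N) (ZMod N) P)[X]).coeff (k - l) = 0 := by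
        apply coeff_eq_zero_of_natDegree_lt
        have := hc j i
        have := l.2
        omega
      rw [h3]
      simp

/-- The representation by matrices over `P[X]`. -/
theorem exists_rho {act : ZMod N → P →ₐ[K] P} (h : Act act) :
    ∃ (q : ℕ) (ρ : Sk h →ₐ[K] Matrix (Fin q) (Fin q) (Polynomial P)), Function.Injective ρ := by
  let e : ZMod N ≃ Fin (Fintype.card (ZMod N)) := Fintype.equivFin _
  let f1 : (Matrix (ZMod N) (ZMod N) P)[X] →ₐ[K] Matrix (ZMod N) (ZMod N) P[X] :=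
    (matPolyEquiv (n := ZMod N) (R := P)).symm.toAlgHom.restrictScalars K
  let f2 : Matrix (ZMod N) (ZMod N) P[X] →ₐ[K]
      Matrix (Fin (Fintype.card (ZMod N))) (Fin (Fintype.card (ZMod N))) P[X] :=
    (Matrix.reindexAlgEquiv K P[X] e).toAlgHom
  refine ⟨_, (f2.comp f1).comp (Sk h).val, ?_⟩
  have h1 : Function.Injective f1 := (matPolyEquiv (n := ZMod N) (R := P)).symm.injective
  have h2 : Function.Injective f2 := (Matrix.reindexAlgEquiv K P[X] e).injective
  exact (h2.comp h1).comp Subtype.val_injective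

end Gen

end Pool.Agent.W583.GE
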